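import Mathlib
import Pool.Agent.X115.DL.Att4

/-!
# Canonical heights of points with a conjugate in the basin of an attracting cycle

Let `F` be an endomorphism of degree `d ≥ 2` of `P^N` over a number field `K`, `τ : K → ℂ` an
embedding and `Q ∈ P^N(K)` a point with `F^ℓ(Q) = Q`, which is attracting at `τ`: for a projective
distance `δ`, `δ(F^ℓ(z), Q) ≤ ρ δ(z, Q)`, `ρ < 1`, for all `z ∈ P^N(ℂ)` with `δ(z, Q) ≤ r`.  Let `P`
be a wandering point over an extension `L` of degree `D` of `K`, such that for at least `m ≥ 1` of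
the embeddings `σ` of `L` over `τ` the point `σ(F^j(P))` is at distance at most `r` of `Q`.  Then
`ĥ(P) ≥ d^(-j) exp(-C D / m)`.  If `Q` is superattracting, `δ(F^ℓ(z), Q) ≤ A δ(z, Q)^e` with `e > 1`,
then even `ĥ(P) ≥ c d^(-j) (m / D)^κ`, `κ = ℓ log d / log e` (with a smaller radius).
-/

set_option autoImplicit false

namespace Pool.Agent.Results.MP_2194ec_nt.AttractingCycles

open MvPolynomial NumberField Module Filter Topology

/-- the map defined by a tuple of forms over `K`, on coordinate vectors over an extension `L` -/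
noncomputable def polyMap {K L : Type} [Field K] [Field L] [Algebra K L] {N : ℕ}
    (F : Fin (N + 1) → MvPolynomial (Fin (N + 1)) K) (y : Fin (N + 1) → L) : Fin (N + 1) → L :=
  fun i => aeval y (F i)

/-- the map on complex vectors belonging to an embedding `τ` of `K` -/
noncomputable def complexMap {K : Type} [Field K] {N : ℕ} (τ : K →+* ℂ)
    (F : Fin (N + 1) → MvPolynomial (Fin (N + 1)) K) (y : Fin (N + 1) → ℂ) : Fin (N + 1) → ℂ :=
  fun i => eval₂ τ y (F i)

/-- the canonical height of a coordinate vector over the number field `L`, for a tuple `F` of forms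
of degree `d`: the limit of `h(F^n(x)) / d ^ n`, where `h` is the absolute logarithmic Weil height,
that is Mathlib's (relative) `Height.logHeight` divided by `[L : ℚ]` -/
noncomputable def canonicalHeight {K L : Type} [Field K] [Field L] [NumberField L] [Algebra K L]
    {N : ℕ} (F : Fin (N + 1) → MvPolynomial (Fin (N + 1)) K) (d : ℕ) (x : Fin (N + 1) → L) : ℝ :=
  limUnder atTop fun n : ℕ =>
    Height.logHeight ((polyMap F)^[n] x) / ((finrank ℚ L : ℝ) * (d : ℝ) ^ n)

/-- the projective distance: the largest minor `|y i * z j - y j * z i|`, divided by the product of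
the maximum norms -/
noncomputable def distance {N : ℕ} (y z : Fin (N + 1) → ℂ) : ℝ :=
  (⨆ p : Fin (N + 1) × Fin (N + 1), ‖y p.1 * z p.2 - y p.2 * z p.1‖) / (‖y‖ * ‖z‖)

/-- the image of a vector under an embedding -/
def embed {L : Type} [Field L] {N : ℕ} (σ : L →+* ℂ) (x : Fin (N + 1) → L) : Fin (N + 1) → ℂ :=
  fun i => σ (x i)

/-- the two coordinate vectors define the same point -/
def SamePoint {L : Type} [Field L] {N : ℕ} (y z : Fin (N + 1) → L) : Prop :=
  ∃ c : L, c ≠ 0 ∧ y = c • z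

/-- the point with coordinate vector `x` is wandering -/
def Wandering {K L : Type} [Field K] [Field L] [Algebra K L] {N : ℕ}
    (F : Fin (N + 1) → MvPolynomial (Fin (N + 1)) K) (x : Fin (N + 1) → L) : Prop :=
  ¬ ∃ m n : ℕ, m ≠ n ∧ SamePoint ((polyMap F)^[n] x) ((polyMap F)^[m] x)

/-- the number of embeddings of `L` over `τ` for which `F^j(x)` is at distance at most `r` of `Q` -/
noncomputable def closeConjugates {K L : Type} [Field K] [Field L] [Algebra K L] {N : ℕ}
    (τ : K →+* ℂ) (F : Fin (N + 1) → MvPolynomial (Fin (N + 1)) K) (Q : Fin (N + 1) → K)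
    (j : ℕ) (r : ℝ) (x : Fin (N + 1) → L) : ℕ :=
  Nat.card {σ : L →+* ℂ // σ.comp (algebraMap K L) = τ ∧
    distance (embed σ ((polyMap F)^[j] x)) (embed τ Q) ≤ r}

theorem result (K : Type) [Field K] [NumberField K] (N d : ℕ) (hd : 2 ≤ d)
    (F : Fin (N + 1) → MvPolynomial (Fin (N + 1)) K) (hF : ∀ i, (F i).IsHomogeneous d)
    (hmor : ∀ z : Fin (N + 1) → AlgebraicClosure K, (∀ i, aeval z (F i) = 0) → z = 0)
    (τ : K →+* ℂ) (Q : Fin (N + 1) → K) (hQ : Q ≠ 0) (ℓ : ℕ) (hℓ : 1 ≤ ℓ)
    (hper : SamePoint ((polyMap F)^[ℓ] Q) Q) :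
    -- attracting cycles
    (∀ r ρ : ℝ, 0 < r → ρ < 1 →
      (∀ z : Fin (N + 1) → ℂ, z ≠ 0 → distance z (embed τ Q) ≤ r →
        distance ((complexMap τ F)^[ℓ] z) (embed τ Q) ≤ ρ * distance z (embed τ Q)) →
      ∃ C : ℝ, 0 < C ∧ ∀ (L : Type) [Field L] [NumberField L] [Algebra K L]
        (x : Fin (N + 1) → L), x ≠ 0 → Wandering F x → ∀ j m : ℕ, 1 ≤ m →
          m ≤ closeConjugates τ F Q j r x →
          Real.exp (-(C * (finrank K L / m))) / (d : ℝ) ^ j ≤ canonicalHeight F d x) ∧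
    -- superattracting cycles
    (∀ r A e : ℝ, 0 < r → 1 < e →
      (∀ z : Fin (N + 1) → ℂ, z ≠ 0 → distance z (embed τ Q) ≤ r →
        distance ((complexMap τ F)^[ℓ] z) (embed τ Q) ≤ A * distance z (embed τ Q) ^ e) →
      ∃ r' c : ℝ, 0 < r' ∧ 0 < c ∧ ∀ (L : Type) [Field L] [NumberField L] [Algebra K L]
        (x : Fin (N + 1) → L), x ≠ 0 → Wandering F x → ∀ j m : ℕ, 1 ≤ m →
          m ≤ closeConjugates τ F Q j r' x →
          c * (m / finrank K L : ℝ) ^ (ℓ * Real.log d / Real.log e) / (d : ℝ) ^ j ≤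
            canonicalHeight F d x) := by
  have hd0 : ∀ j : ℕ, (0 : ℝ) < (d : ℝ) ^ j := fun j => by
    have : 0 < d := by omega
    positivity
  refine ⟨fun r ρ hr hρ hatt => ?_, fun r A e hr he hatt => ?_⟩
  · obtain ⟨C, hC, h⟩ := Pool.Agent.X115.DL.attracting K N d hd F hF hmor τ Q hQ ℓ hℓ hper r ρ hr
      hρ hatt
    refine ⟨C, hC, fun L _ _ _ x hx hw j m hm hcard => ?_⟩
    rw [div_le_iff₀ (hd0 j), mul_comm _ ((d : ℝ) ^ j)]
    exact h L x hx hw j m hm hcard
  · obtain ⟨r', c, hr', hc, h⟩ := Pool.Agent.X115.DL.superattracting K N d hd F hF hmor τ Q hQ ℓ hℓ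
      hper r A e hr he hatt
    refine ⟨r', c, hr', hc, fun L _ _ _ x hx hw j m hm hcard => ?_⟩
    rw [div_le_iff₀ (hd0 j), mul_comm _ ((d : ℝ) ^ j)]
    exact h L x hx hw j m hm hcard

end Pool.Agent.Results.MP_2194ec_nt.AttractingCycles
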