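import Pool.Agent.X295.LhC

/-!
# MP_2194ec_nt: the dynamical Lehmer inequality in families with several parameters, with a constant which grows with the height of the parameter

Let `K` be a number field of degree `n` (for instance `ℚ`), and let `A_1, …, A_N` be forms of degree `d ≥ 2` over
`K` in `N` variables with no common zero except the origin.  Consider the family of the regular polynomial maps

  `f_t(x)_i = A_i(x) + ∑_{|α| < d} p_{i,α}(t) x^α`, `t ∈ K^m`,

where the `p_{i,α}` are polynomials over `K` in `m` variables of degree `≤ δ (1 - |α|/d)`, and one of the constant terms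
has the degree `δ ≥ 1`.  They extend to endomorphisms of degree `d` of `P^N`.  For example (`N = 1`), all families

  `f_t(z) = z^d + p_{d-1}(t) z^{d-1} + … + p_0(t)`, `deg p_i ≤ (1 - i/d) deg p_0`, `p_0` not constant.

Put `β = d / gcd(d, δ)`, let `s` be the least prime factor of `β`, and `κ, ε > 0`.  Then for all but
`O(H^(n (m + 1) - 1 + n/s + κ + ε))` of the parameters `t` of height at most `H` the following holds for ALL finite
extensions `L` of `K` whose degree is not divisible by `β`, and ALL points `P` of `P^N(L)` not at infinity: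

  `ĥ(P) ≥ (δ κ log H / (d n)) / [L : K]`, and even `ĥ(P) ≥ δ κ log H / (d n)` if `L` is a Galois extension of `K`.

So the Lehmer inequality holds for these points, there is no bound on the degree of `L`, and the constant is not
only independent of `t` but grows with the height.  In particular all these points are wandering.

Proof.  Write `t = (x_1 / x_0, …, x_m / x_0)` with integers `x_i` of `K`.  Let `β'` be a divisor of `β`, `β' > 1`.  For all
but few `x` the places `v` of `K` with `v(x_0) = k > 0`, `β' ∤ k`, prime to the leading form of the constant term, have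
`∑ log N(v) ≥ κ log H` (`Pool.Agent.X295.GalA` to `GalK`, `LhB`).  Let `β' = β / gcd(β, [L : K])`, so
`β ∤ k [L : K]`, and `β ∤ e(w) k` for some of the places `w` of `L` above `v` (for all of them if `L` is Galois).
Then `d ∤ δ e(w) k`, so the orbit of every point goes to infinity in the `w`-adic topology, at the rate
`min w(f^(j+1)(P)) ≤ - d^j δ e(w) k`.
-/

set_option autoImplicit false

open NumberField MvPolynomial Module Filter Topology

namespace Pool.Agent.Results.MP_2194ec_nt.FamiliesSeveralParameters

section
variable {K : Type} [Field K] {N : ℕ}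

/-- A morphism of degree `d` from `P^(N-1)` to itself: `N` forms of degree `d` with no common zero except the
origin. -/
def IsMorphism (d : ℕ) (F : Fin N → MvPolynomial (Fin N) K) : Prop :=
  (∀ i, (F i).IsHomogeneous d) ∧
    ∀ y : Fin N → AlgebraicClosure K, (∀ i, aeval y (F i) = 0) → y = 0

/-- `h` is the canonical height of the point with coordinate vector `y` over the number field `L`: the limit of
`h(F^j(y)) / d^j`, where `h` is the absolute logarithmic Weil height, that is Mathlib's (relative)
`Height.logHeight` divided by `[L : ℚ]`. -/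
def IsCanonicalHeight (L : Type) [Field L] [NumberField L] [Algebra K L] (d : ℕ)
    (F : Fin N → MvPolynomial (Fin N) K) (y : Fin N → L) (h : ℝ) : Prop :=
  Tendsto (fun j : ℕ => Height.logHeight ((fun (x : Fin N → L) i => aeval x (F i))^[j] y) /
    ((finrank ℚ L : ℝ) * (d : ℝ) ^ j)) atTop (𝓝 h)

/-- The homogenization of degree `d`, with the new variable `X 0`. -/
noncomputable def homogenize (d : ℕ) (f : MvPolynomial (Fin N) K) :
    MvPolynomial (Fin (N + 1)) K :=
  ∑ α ∈ f.support, monomial (Finsupp.cons (d - α.degree) α) (coeff α f)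

variable {m : ℕ}

/-- The member at `t` of the family with the leading forms `A i` and the other coefficients given by the
`P i`: the endomorphism `(X_0^d, F_1, …, F_N)` of `P^N`, where `F_i` is the homogenization of
`A_i + P_i(t)`. -/
noncomputable def member (d : ℕ) (A : Fin N → MvPolynomial (Fin N) K)
    (P : Fin N → MvPolynomial (Fin N) (MvPolynomial (Fin m) K)) (t : Fin m → K) :
    Fin (N + 1) → MvPolynomial (Fin (N + 1)) K :=
  Fin.cons (X 0 ^ d) fun i => homogenize d (A i + MvPolynomial.map (eval t) (P i))

/-- The leading forms are of degree `d` and have no common zero except the origin, all other coefficients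
`p_{i,α}` have `|α| < d` and degree at most `δ (d - |α|) / d` in the parameters, and one of the constant
terms has the degree `δ ≥ 1`. -/
structure IsFamily (d δ : ℕ) (A : Fin N → MvPolynomial (Fin N) K)
    (P : Fin N → MvPolynomial (Fin N) (MvPolynomial (Fin m) K)) : Prop where
  leading : IsMorphism d A
  lower : ∀ i α, coeff α (P i) ≠ 0 → α.degree < d ∧
    d * (coeff α (P i)).totalDegree ≤ δ * (d - α.degree)
  constant : ∃ i, (coeff 0 (P i)).totalDegree = δ
  pos : 1 ≤ δ

end

section
variable {K : Type} [Field K] [NumberField K] {ι : Type} [Fintype ι] {N m : ℕ}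

/-- The height of `t` is at most `H`: `t = (x_1 / x_0, …, x_m / x_0)` with integers `x_i` of `K` whose
coordinates in the basis `ω` are at most `H`. -/
def HeightLe (ω : Module.Basis ι ℤ (𝓞 K)) (H : ℕ) (t : Fin m → K) : Prop :=
  ∃ x : Fin (m + 1) → 𝓞 K, x 0 ≠ 0 ∧ (∀ i k, |ω.repr (x i) k| ≤ H) ∧
    ∀ j, t j = (x j.succ : K) / (x 0 : K)

/-- For every finite extension `L` of `K` whose degree is not divisible by `β`, and every point of `P^N(L)` with
`y 0 ≠ 0`, the canonical height exists, it is at least `c / [L : K]`, and at least `c` if `L` is a Galois extension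
of `K`. -/
def Lehmer (d β : ℕ) (c : ℝ) (F : Fin (N + 1) → MvPolynomial (Fin (N + 1)) K) : Prop :=
  ∀ (L : Type) [Field L] [NumberField L] [Algebra K L], ¬ β ∣ finrank K L →
    ∀ y : Fin (N + 1) → L, y 0 ≠ 0 → ∃ h : ℝ, IsCanonicalHeight L d F y h ∧
      c / finrank K L ≤ h ∧ (IsGalois K L → c ≤ h)

/-- The parameters `t` of height at most `H` for which this is false. -/
def Exceptions (ω : Module.Basis ι ℤ (𝓞 K)) (d β : ℕ) (c : ℝ)
    (A : Fin N → MvPolynomial (Fin N) K)
    (P : Fin N → MvPolynomial (Fin N) (MvPolynomial (Fin m) K)) (H : ℕ) : Set (Fin m → K) :=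
  {t | HeightLe ω H t ∧ ¬ Lehmer d β c (member d A P t)}

end

/-- **The dynamical Lehmer inequality for almost all members.** -/
theorem result (K : Type) [Field K] [NumberField K] {ι : Type} [Fintype ι]
    (ω : Module.Basis ι ℤ (𝓞 K)) (N m d δ : ℕ) (hd : 2 ≤ d)
    (A : Fin N → MvPolynomial (Fin N) K)
    (P : Fin N → MvPolynomial (Fin N) (MvPolynomial (Fin m) K)) (hF : IsFamily d δ A P) :
    (∀ t : Fin m → K, IsMorphism d (member d A P t)) ∧
    ∀ κ : ℝ, 0 < κ → ∀ ε : ℝ, 0 < ε → ∃ C : ℝ, ∀ H : ℕ, 1 ≤ H →
      (Exceptions ω d (d / Nat.gcd d δ) (δ * κ * Real.log H / (d * finrank ℚ K)) A P H).Finite ∧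
      ((Exceptions ω d (d / Nat.gcd d δ)
        (δ * κ * Real.log H / (d * finrank ℚ K)) A P H).ncard : ℝ) ≤
        C * (H : ℝ) ^ (((m : ℝ) + 1) * finrank ℚ K - 1 +
          (finrank ℚ K : ℝ) / ((d / Nat.gcd d δ).minFac : ℕ) + κ + ε) := by
  obtain ⟨⟨h1, h2⟩, h3, h4, h5⟩ := hF
  have h6 : ∀ i, ∀ α ∈ (P i).support, α.degree < d ∧
      d * (coeff α (P i)).totalDegree ≤ δ * (d - α.degree) :=
    fun i α hα => h3 i α (mem_support_iff.1 hα)
  have h7 : ∀ i, ∀ α ∈ (P i).support, α.degree < d := fun i α hα => (h6 i α hα).1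
  refine ⟨fun t => Pool.Agent.X295.Pf.ext_morphism (by omega) h1 h2 h7 t, fun κ hκ ε hε => ?_⟩
  obtain ⟨C, -, hC⟩ := Pool.Agent.X295.Lh.lehmer_few hd h1 h2 ω P δ h5 h6 h4 κ hκ ε hε
  refine ⟨C, fun H hH => hC H hH _ ?_⟩
  rintro t ⟨ht, hnot⟩
  refine ⟨ht, fun hgood => hnot ?_⟩
  intro L _ _ _ hL y hy
  obtain ⟨h, g1, g2, g3⟩ := hgood L hL y hy
  refine ⟨h, g1, ?_, g3⟩
  rw [div_div]
  exact g2

end Pool.Agent.Results.MP_2194ec_nt.FamiliesSeveralParameters
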