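import Mathlib
import Pool.Agent.X115.DL.Pre4

/-!
# Canonical heights of points that are preperiodic modulo an ideal

Let `F` be an endomorphism of degree `d ≥ 2` of `P^N` over a number field `K`, `P` a point over a
finite extension `L`, and `k < n`.  If `F^n(P)` and `F^k(P)` are different but congruent modulo
`𝔓_v ^ e_v` for the places `v` in a finite set `T`, then

  `∑_{v ∈ T} e_v log N(v) ≤ [L : ℚ] ((d ^ n + d ^ k) ĥ(P) + C)`,

`C` depending on `F` only.  If all partial derivatives of the forms are divisible by `a`, a nonzero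
non-unit of `𝓞_K`, at whose prime divisors `F` has good reduction, then all wandering points `P`
with `F^n(P) ≡ F^k(P)` modulo `a` satisfy `ĥ(P) ≥ c / d ^ n`, with `c > 0` depending on `F` and
`a` only.  This is the Lehmer inequality if `d ^ n` is at most a constant times the degree of `P`.
-/

set_option autoImplicit false

namespace Pool.Agent.Results.MP_2194ec_nt.PreperiodicModuloIdeals

open MvPolynomial NumberField Module Filter Topology

/-- the map defined by a tuple of forms over `K`, on coordinate vectors over an extension `L` -/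
noncomputable def polyMap {K L : Type} [Field K] [Field L] [Algebra K L] {N : ℕ}
    (F : Fin (N + 1) → MvPolynomial (Fin (N + 1)) K) (y : Fin (N + 1) → L) : Fin (N + 1) → L :=
  fun i => aeval y (F i)

/-- the canonical height of a coordinate vector over the number field `L`, for a tuple `F` of forms
of degree `d`: the limit of `h(F^n(x)) / d ^ n`, where `h` is the absolute logarithmic Weil height,
that is Mathlib's (relative) `Height.logHeight` divided by `[L : ℚ]` -/
noncomputable def canonicalHeight {K L : Type} [Field K] [Field L] [NumberField L] [Algebra K L]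
    {N : ℕ} (F : Fin (N + 1) → MvPolynomial (Fin (N + 1)) K) (d : ℕ) (x : Fin (N + 1) → L) : ℝ :=
  limUnder atTop fun n : ℕ =>
    Height.logHeight ((polyMap F)^[n] x) / ((finrank ℚ L : ℝ) * (d : ℝ) ^ n)

/-- the points with coordinate vectors `y`, `z` are congruent at `v` to the precision `r`: all
minors `y i * z j - y j * z i` have absolute value at most `r * |y|_v * |z|_v` -/
def Congruent {L : Type} [Field L] [NumberField L] {N : ℕ} (v : FinitePlace L) (r : ℝ)
    (y z : Fin (N + 1) → L) : Prop :=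
  ∀ i j, v (y i * z j - y j * z i) ≤ r * ((⨆ l, v (y l)) * ⨆ l, v (z l))

/-- the two coordinate vectors define the same point -/
def SamePoint {L : Type} [Field L] {N : ℕ} (y z : Fin (N + 1) → L) : Prop :=
  ∃ c : L, c ≠ 0 ∧ y = c • z

/-- the forms have coefficients in `𝓞_K` and all their partial derivatives are divisible by `a` -/
def DerivativesVanish {K : Type} [Field K] {N : ℕ}
    (F : Fin (N + 1) → MvPolynomial (Fin (N + 1)) K) (a : 𝓞 K) : Prop :=
  ∃ G : Fin (N + 1) → MvPolynomial (Fin (N + 1)) (𝓞 K),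
    (∀ i, F i = (G i).map (algebraMap (𝓞 K) K)) ∧ ∀ i j, C a ∣ pderiv j (G i)

/-- good reduction at the places dividing `a`: `|F(z)|_v = |z|_v ^ d` -/
def GoodReduction {K : Type} [Field K] [NumberField K] {N : ℕ}
    (F : Fin (N + 1) → MvPolynomial (Fin (N + 1)) K) (d : ℕ) (a : 𝓞 K) : Prop :=
  ∀ (L : Type) [Field L] [NumberField L] [Algebra K L] (v : FinitePlace L),
    v (algebraMap K L (a : K)) < 1 →
      ∀ z : Fin (N + 1) → L, (⨆ i, v (polyMap F z i)) = (⨆ i, v (z i)) ^ d

theorem result (K : Type) [Field K] [NumberField K] (N d : ℕ) (hd : 2 ≤ d)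
    (F : Fin (N + 1) → MvPolynomial (Fin (N + 1)) K) (hF : ∀ i, (F i).IsHomogeneous d)
    (hmor : ∀ z : Fin (N + 1) → AlgebraicClosure K, (∀ i, aeval z (F i) = 0) → z = 0) :
    -- arbitrary ideals
    (∃ C : ℝ, 0 < C ∧ ∀ (L : Type) [Field L] [NumberField L] [Algebra K L]
      (x : Fin (N + 1) → L), x ≠ 0 →
      Tendsto (fun n : ℕ => Height.logHeight ((polyMap F)^[n] x) /
        ((finrank ℚ L : ℝ) * (d : ℝ) ^ n)) atTop (𝓝 (canonicalHeight F d x)) ∧
      ∀ k n : ℕ, ¬ SamePoint ((polyMap F)^[n] x) ((polyMap F)^[k] x) →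
        ∀ (T : Finset (FinitePlace L)) (e : FinitePlace L → ℕ),
          (∀ v ∈ T, Congruent v (((v.maximalIdeal.asIdeal.absNorm : ℝ) ^ e v)⁻¹)
            ((polyMap F)^[n] x) ((polyMap F)^[k] x)) →
          ∑ v ∈ T, (e v : ℝ) * Real.log (v.maximalIdeal.asIdeal.absNorm) ≤
            finrank ℚ L * ((d ^ n + d ^ k) * canonicalHeight F d x + C)) ∧
    -- maps whose derivatives vanish modulo `a`
    (∀ a : 𝓞 K, a ≠ 0 → ¬ IsUnit a → DerivativesVanish F a → GoodReduction F d a →
      ∃ c : ℝ, 0 < c ∧ ∀ (L : Type) [Field L] [NumberField L] [Algebra K L]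
        (x : Fin (N + 1) → L), x ≠ 0 →
        (¬ ∃ m n : ℕ, m ≠ n ∧ SamePoint ((polyMap F)^[n] x) ((polyMap F)^[m] x)) →
        ∀ k n : ℕ, k < n →
          (∀ v : FinitePlace L, v (algebraMap K L (a : K)) < 1 →
            Congruent v (v (algebraMap K L (a : K))) ((polyMap F)^[n] x) ((polyMap F)^[k] x)) →
          c / (d : ℝ) ^ n ≤ canonicalHeight F d x) := by
  classical
  refine ⟨?_, fun a ha hu hda hgood => ?_⟩
  · obtain ⟨C, hC, h⟩ := Pool.Agent.X115.DL.part1 K N d hd F hF hmor
    refine ⟨C, hC, fun L _ _ _ x hx => ?_⟩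
    obtain ⟨h1, -, h3⟩ := h L x hx
    refine ⟨h1, fun k n hnp T e hc => ?_⟩
    have hg := Pool.Agent.X115.DL.hasGS_finset T
      (fun v => (e v : ℝ) * Real.log (v.maximalIdeal.asIdeal.absNorm))
    refine h3 k n hnp _ _ hg fun v => ?_
    by_cases hv : v ∈ T
    · have hpos : (0 : ℝ) < v.maximalIdeal.asIdeal.absNorm := by
        have h5 : v.maximalIdeal.asIdeal.absNorm ≠ 0 := by
          rw [Ne, Ideal.absNorm_eq_zero_iff]
          exact v.maximalIdeal.ne_bot
        exact_mod_cast Nat.pos_of_ne_zero h5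
      have e1 : Real.exp (-(if v ∈ T then
          (e v : ℝ) * Real.log (v.maximalIdeal.asIdeal.absNorm) else 0)) =
          ((v.maximalIdeal.asIdeal.absNorm : ℝ) ^ e v)⁻¹ := by
        rw [if_pos hv, Real.exp_neg, ← Real.log_pow, Real.exp_log (pow_pos hpos _)]
      rw [e1]
      exact hc v hv
    · rw [if_neg hv, neg_zero, Real.exp_zero]
      exact Pool.Agent.X115.DL.minor_fin v _ _
  · obtain ⟨c, hc, h⟩ := Pool.Agent.X115.DL.part2 K N d hd F hF hmor a ha hu hda hgood
    refine ⟨c, hc, fun L _ _ _ x hx hw k n hkn hcon => ?_⟩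
    have h1 := h L x hx hw k n hkn hcon
    have hd0 : (0 : ℝ) < (d : ℝ) ^ n := by
      have : 0 < d := by omega
      positivity
    rw [div_le_iff₀ hd0, mul_comm]
    exact h1

end Pool.Agent.Results.MP_2194ec_nt.PreperiodicModuloIdeals
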